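import Pool.Agent.KS6_79.CK.FIN
import Pool.Agent.KS6_79.CK.ACT
import Pool.Agent.KS6_79.CK.AR1
import Pool.Agent.KS6_79.CK.AR2
import Pool.Agent.KS6_79.CK.ARE
import Pool.Agent.KS6_79.CK.ALM
import Pool.Agent.KS6_79.CK.BLM
import Pool.Agent.KS6_79.CK.CTB
import Pool.Agent.KS6_79.CK.EXT
import Pool.Agent.KS6_79.CK.FRM
import Pool.Agent.KS6_79.CK.GNP
import Pool.Agent.KS6_79.CK.GRF
import Pool.Agent.KS6_79.CK.ISOM
import Pool.Agent.KS6_79.CK.LOW
import Pool.Agent.KS6_79.CK.MAIN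
import Pool.Graph.R_seed8.H417R2.CH.HADD
import Pool.Graph.R_seed8.H417R2.CH.HLAM
import Pool.Graph.R_seed8.H417R2.CH.GZ
import Pool.Graph.R_seed8.H417R2.CH.LAP1
import Pool.Graph.R_seed8.H417R2.CH.LAP
import Pool.Graph.R_seed8.H417R2.CH.HLIP
import Pool.Graph.R_seed8.H417R2.CH.LIPO
import Pool.Graph.R_seed8.H417R2.CH.EIGA
import Pool.Graph.R_seed8.H417R2.CH.EIGB
import Pool.Graph.R_seed8.H417R2.CH.ABSM
import Pool.Graph.R_seed8.H417R2.CH.REGW
import Pool.Graph.R_seed8.H417R2.CH.SMP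
import Pool.Graph.R_seed8.H417R2.CH.EIGF
import Pool.Graph.R_seed8.H417R2.CH.EIG
import Pool.Graph.R_seed8.H417R2.CH.STR
import Pool.Graph.R_seed8.H417R2.CH.UP
import Pool.Graph.R_seed8.H417R2.CH.HOPF
import Pool.Graph.R_seed8.H417R2.CH.CAC
import Pool.Graph.R_seed8.H417R2.CH.EST
import Pool.Graph.R_seed8.H417R2.CH.WB
import Pool.Graph.R_seed8.H417R2.CH.VTX
import Pool.Graph.R_seed8.H417R2.CH.PGA
import Pool.Graph.R_seed8.H417R2.CH.PGB
import Pool.Graph.R_seed8.H417R2.CH.PLM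
import Pool.Graph.R_seed8.H417R2.CH.GII
import Pool.Graph.R_seed8.H417R2.CH.GIII
import Pool.Graph.R_seed8.H417R2.CH.ISO
import Pool.Graph.R_seed8.H417R2.CH.LINE
import Pool.Graph.R_seed8.H417R2.CH.CMP
import Pool.Graph.R_seed8.H417R2.CH.WID
import Pool.Graph.R_seed8.H417R2.CH.SLC
import Pool.Graph.R_seed8.H417R2.CH.ROT
import Pool.Graph.R_seed8.H417R2.CH.COA
import Pool.Graph.R_seed8.H417R2.CH.CI
import Pool.Graph.R_seed8.H417R2.CH.CII
import Pool.Graph.R_seed8.H417R2.CH.SHR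
import Pool.Graph.R_seed8.H417R2.CH.REG
import Pool.Graph.R_seed8.H417R2.CH.BEND
import Pool.Graph.R_seed8.H417R2.CH.ADM
import Pool.Graph.R_seed8.H417R2.CH.RMP
import Pool.Graph.R_seed8.H417R2.CH.HAT
import Pool.Graph.R_seed8.H417R2.CH.NRM
import Pool.Graph.R_seed8.H417R2.CH.EXB
import Pool.Graph.R_seed8.H417R2.CH.CPT
import Pool.Graph.R_seed8.H417R2.CH.SUP
import Pool.Graph.R_seed8.H417R2.CH.VAR
import Pool.Graph.R_seed8.H417R2.CH.CHV
import Pool.Graph.R_seed8.H417R2.CH.TRN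

/-!
MP_70c477_an, Q2, in a local and general form.  For every cost function `J(λ₁, h)` which is
differentiable with `∂J/∂λ₁ > 0 > ∂J/∂h` (for example `λ₁ / h²`), the boundary of a planar convex
set which is minimal only among its modifications in a small ball around a point `x₀` is polygonal
near `x₀`.  Hence local minimisers are polygons, and the free boundary of minimisers between two
obstacles is locally polygonal.
-/

set_option autoImplicit false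

open MeasureTheory Metric Set Filter Topology

namespace Pool.Agent.Results.MP_70c477_an.LocalMinimisersArePolygons

open Pool.Agent.H417R2.CH Pool.Agent.KS6_79.CK

/-- the two global ingredients -/
theorem local_core {J : ℝ × ℝ → ℝ} (hJ : Cost J) {U : Set V} (hU : PC U) {x₀ : V} {ε : ℝ}
    (hε : 0 < ε) (hmin : LocMin J U x₀ ε) : PolyAt U x₀ := by
  have hLAP : S_LAP := t_LAP t_LAP1 t_GZ
  have hHLIP : S_HLIP := t_HLIP hLAP
  have hLIPO : S_LIPO := t_LIPO hLAP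
  have hEIGB : S_EIGB := t_EIGB t_HADD t_HLAM
  have hABSM : S_ABSM := t_ABSM t_HADD t_HLAM hHLIP t_GZ
  have hEIG : S_EIG := t_EIG t_HADD t_HLAM t_EIGA hEIGB hABSM t_REGW t_SMP t_EIGF
  have hSTR : S_STR := t_STR t_HADD t_HLAM hEIG hEIGB t_REGW t_SMP
  have hCAC : S_CAC2 := t_CAC2 hHLIP
  have hEST : S_EST := t_EST hCAC t_UP
  have hPGB : S_PGB := t_PGB t_VTX
  have hGII : S_GII := t_GII t_PGA t_PLM
  have hGIII : S_GIII := t_GIII hPGB t_PLM
  have hISO : S_ISO := t_ISO hGII t_WB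
  have hSLC : S_SLC := t_SLC t_LINE
  have hCOA : S_COA := t_COA t_CMP t_WID hSLC t_ROT
  have hCI : S_CI := t_CI hCOA hISO
  have hCII : S_CII := t_CII hLIPO hGII hGIII t_WB
  have hSHR : S_SHR := t_SHR hGII t_WB
  have hHAT : S_HAT := t_HAT t_RMP
  have hNRM : S_NRM := t_NRM t_REG
  have hEXB : S_EXB := t_EXB t_BEND
  have hCPT : S_CPT := t_CPT t_ADM
  have hISOM : Pool.Agent.KS6_79.CK.S_ISOM := Pool.Agent.KS6_79.CK.t_ISOM
  have hACT : Pool.Agent.KS6_79.CK.S_ACT :=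
    Pool.Agent.KS6_79.CK.t_ACT hSTR t_ADM hHAT hISOM t_REG hNRM hEXB hCPT
  have hFRM : Pool.Agent.KS6_79.CK.S_FRM :=
    Pool.Agent.KS6_79.CK.t_FRM hACT hISOM t_REG hNRM hEXB
  have hCTB : Pool.Agent.KS6_79.CK.S_CTB := Pool.Agent.KS6_79.CK.t_CTB
  have hGRF : Pool.Agent.KS6_79.CK.S_GRF := Pool.Agent.KS6_79.CK.t_GRF
  have hGNP : Pool.Agent.KS6_79.CK.S_GNP := Pool.Agent.KS6_79.CK.t_GNP hCTB
  have hAR1 : Pool.Agent.KS6_79.CK.S_AR1 := Pool.Agent.KS6_79.CK.t_AR1 t_ADM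
  have hAR2 : Pool.Agent.KS6_79.CK.S_AR2 := Pool.Agent.KS6_79.CK.t_AR2 t_ADM hGRF hCTB
  have hARE : Pool.Agent.KS6_79.CK.S_ARE := Pool.Agent.KS6_79.CK.t_ARE hAR1 hAR2
  have hVAR : S_VAR := t_VAR t_HADD t_HLAM
  have hALM : Pool.Agent.KS6_79.CK.S_ALM :=
    Pool.Agent.KS6_79.CK.t_ALM t_HOPF hHLIP hVAR t_ADM t_REG
  have hLOW : Pool.Agent.KS6_79.CK.S_LOW :=
    Pool.Agent.KS6_79.CK.t_LOW hALM hARE hGRF hCTB hHAT t_ADM hEIG t_REG
  have hTRN : S_TRN := t_TRN hHLIP t_HLAM t_ADM t_REG t_CHV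
  have hBLM : Pool.Agent.KS6_79.CK.S_BLM :=
    Pool.Agent.KS6_79.CK.t_BLM Pool.Agent.KS6_79.CK.t_EXT hTRN hEST t_ADM hEIG t_REG
  have hMAIN : Pool.Agent.KS6_79.CK.S_MAIN :=
    Pool.Agent.KS6_79.CK.t_MAIN hEIG hHAT t_ADM t_REG hLOW hBLM hGNP hGRF hCTB hARE t_SUP hSHR
  exact polyAt_of hCI hCII hEIG hFRM hMAIN hJ hU hε hmin

/-- **Local form of Q2.**  Let `J` be a function of `(λ₁, h)`, differentiable on the open quadrant
with `∂J/∂λ₁ > 0 > ∂J/∂h`, and let `U` be a planar convex set.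
(1) If `U` has minimal cost among the planar convex sets which agree with `U` outside some ball
around `x₀`, then the closure of `U` has no extreme point near `x₀` except possibly `x₀`.
(2) If such a ball exists for every boundary point, then `U` is a polygon.
(3) Local minimisers of the cost in the Hausdorff distance are polygons.
(4) If `U` minimises the cost among the planar convex sets between two obstacles `K₁ ⊆ K₂`, then the
boundary of `U` is polygonal near each point of the interior of `K₂` outside the closure of `K₁`.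
(5) The case of the problem: every optimal set of `λ₁ / h²`, and every local minimiser of
`λ₁ / h²` in the Hausdorff distance, is a polygon. -/
theorem result :
    (∀ J : ℝ × ℝ → ℝ, Cost J → ∀ U : Set V, PC U →
      (∀ (x₀ : V) (ε : ℝ), 0 < ε →
        (∀ U' : Set V, PC U' → symmDiff U U' ⊆ ball x₀ ε →
          J (lam U, hC U) ≤ J (lam U', hC U')) →
        ∃ δ : ℝ, 0 < δ ∧ extremePoints ℝ (closure U) ∩ ball x₀ δ ⊆ {x₀}) ∧
      ((∀ x₀ ∈ frontier U, ∃ ε : ℝ, 0 < ε ∧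
        ∀ U' : Set V, PC U' → symmDiff U U' ⊆ ball x₀ ε →
          J (lam U, hC U) ≤ J (lam U', hC U')) → IsPolygon U) ∧
      ((∃ η : ℝ, 0 < η ∧ ∀ U' : Set V, PC U' → hausdorffDist U U' < η →
          J (lam U, hC U) ≤ J (lam U', hC U')) → IsPolygon U) ∧
      (∀ K₁ K₂ : Set V, K₁ ⊆ U → U ⊆ K₂ →
        (∀ U' : Set V, PC U' → K₁ ⊆ U' → U' ⊆ K₂ → J (lam U, hC U) ≤ J (lam U', hC U')) →
        ∀ x₀ ∈ interior K₂ \ closure K₁,
          ∃ δ : ℝ, 0 < δ ∧ extremePoints ℝ (closure U) ∩ ball x₀ δ ⊆ {x₀})) ∧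
    (∀ U : Set V, IsOptimal U → IsPolygon U) ∧
    ∀ U : Set V, PC U → (∃ η : ℝ, 0 < η ∧ ∀ U' : Set V, PC U' → hausdorffDist U U' < η →
      quot U ≤ quot U') → IsPolygon U := by
  have main : ∀ J : ℝ × ℝ → ℝ, Cost J → ∀ U : Set V, PC U →
      (∀ (x₀ : V) (ε : ℝ), 0 < ε →
        (∀ U' : Set V, PC U' → symmDiff U U' ⊆ ball x₀ ε →
          J (lam U, hC U) ≤ J (lam U', hC U')) →
        ∃ δ : ℝ, 0 < δ ∧ extremePoints ℝ (closure U) ∩ ball x₀ δ ⊆ {x₀}) ∧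
      ((∀ x₀ ∈ frontier U, ∃ ε : ℝ, 0 < ε ∧
        ∀ U' : Set V, PC U' → symmDiff U U' ⊆ ball x₀ ε →
          J (lam U, hC U) ≤ J (lam U', hC U')) → IsPolygon U) ∧
      ((∃ η : ℝ, 0 < η ∧ ∀ U' : Set V, PC U' → hausdorffDist U U' < η →
          J (lam U, hC U) ≤ J (lam U', hC U')) → IsPolygon U) ∧
      (∀ K₁ K₂ : Set V, K₁ ⊆ U → U ⊆ K₂ →
        (∀ U' : Set V, PC U' → K₁ ⊆ U' → U' ⊆ K₂ → J (lam U, hC U) ≤ J (lam U', hC U')) →
        ∀ x₀ ∈ interior K₂ \ closure K₁,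
          ∃ δ : ℝ, 0 < δ ∧ extremePoints ℝ (closure U) ∩ ball x₀ δ ⊆ {x₀}) := by
    intro J hJ U hU
    have h1 : ∀ (x₀ : V) (ε : ℝ), 0 < ε →
        (∀ U' : Set V, PC U' → symmDiff U U' ⊆ ball x₀ ε →
          J (lam U, hC U) ≤ J (lam U', hC U')) →
        ∃ δ : ℝ, 0 < δ ∧ extremePoints ℝ (closure U) ∩ ball x₀ δ ⊆ {x₀} :=
      fun x₀ ε hε hmin => local_core hJ hU hε hmin
    have h2 : (∀ x₀ ∈ frontier U, ∃ ε : ℝ, 0 < ε ∧
        ∀ U' : Set V, PC U' → symmDiff U U' ⊆ ball x₀ ε →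
          J (lam U, hC U) ≤ J (lam U', hC U')) → IsPolygon U := by
      intro h
      apply polygon_of U hU
      intro x₀ hx₀
      obtain ⟨ε, hε, hmin⟩ := h x₀ hx₀
      exact h1 x₀ ε hε hmin
    refine ⟨h1, h2, ?_, ?_⟩
    · rintro ⟨η, hη, hmin⟩
      apply h2
      intro x₀ hx₀
      obtain ⟨ε, hε, hn⟩ := near_haus hU hx₀ hη
      exact ⟨ε, hε, fun U' hU' hs => hmin U' hU' (hn U' hs)⟩
    · intro K₁ K₂ hK₁ hK₂ hmin x₀ hx₀
      obtain ⟨e₁, he₁, hs₁⟩ := Metric.isOpen_iff.1 isOpen_interior x₀ hx₀.1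
      obtain ⟨e₂, he₂, hs₂⟩ := Metric.isOpen_iff.1 isClosed_closure.isOpen_compl x₀ hx₀.2
      refine h1 x₀ (min e₁ e₂) (lt_min he₁ he₂) fun U' hU' hs => hmin U' hU' ?_ ?_
      · intro p hp
        by_contra hcon
        have h3 := hs (Or.inl ⟨hK₁ hp, hcon⟩)
        exact hs₂ (ball_subset_ball (min_le_right _ _) h3) (subset_closure hp)
      · intro p hp
        by_cases hpU : p ∈ U
        · exact hK₂ hpU
        · have h3 := hs (Or.inr ⟨hp, hpU⟩)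
          exact interior_subset (hs₁ (ball_subset_ball (min_le_left _ _) h3))
  refine ⟨main, ?_, ?_⟩
  · intro U hU
    exact (main _ cost_quot U hU.1).2.2.1 ⟨1, one_pos, fun U' hU' _ => hU.2 U' hU'⟩
  · intro U hU h
    exact (main _ cost_quot U hU).2.2.1 h

end Pool.Agent.Results.MP_70c477_an.LocalMinimisersArePolygons
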